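import Pool.Agent.Helper79.GL4.GoalsB

/-! Packet PFIN of MP_27a5f8_al. -/

set_option autoImplicit false
set_option linter.unusedVariables false

namespace Pool.Agent.Helper11.PFIN

open Module Submodule _root_.GL4

theorem be_equiv {F : Type} [Field F] {W : Type} [AddCommGroup W] [Module F W]
    {G : Subgroup (W ≃ₗ[F] W)} {B N : Submodule F W → Submodule F W}
    (hN : ∀ g ∈ G, ∀ x, Pt x → N (im g x) = im g (N x))
    (hB : ∀ g ∈ G, ∀ x, Pt x → B (im g x) = im g (B x)) :
    ∀ i, ∀ g ∈ G, ∀ x, Pt x → Be B N i (im g x) = im g (Be B N i x) := by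
  intro i
  induction i using Nat.strong_induction_on with
  | _ i ih =>
    match i, ih with
    | 0, _ =>
      intro g hg x hx
      simp [Be, im_top]
    | 1, _ =>
      intro g hg x hx
      exact hB g hg x hx
    | (i + 2), ih =>
      have key : ∀ g ∈ G, ∀ x, Pt x → im g (Be B N (i + 2) x) ≤ Be B N (i + 2) (im g x) := by
        intro g hg x hx
        refine le_iInf fun w => ?_
        obtain ⟨w, hw, hwN⟩ := w
        have hw' : Pt (im g⁻¹ w) := hw.im
        have hwN' : im g⁻¹ w ≤ N x := by
          rw [hN g hg x hx] at hwN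
          have := im_mono g⁻¹ hwN
          rwa [im_inv_im] at this
        have h1 : Be B N (i + 1) w = im g (Be B N (i + 1) (im g⁻¹ w)) := by
          rw [← ih (i + 1) (by omega) g hg _ hw', im_im_inv]
        show im g (Be B N (i + 2) x) ≤ Be B N (i + 1) w
        rw [h1]
        apply im_mono
        exact iInf_le (fun w : {w : Submodule F W // Pt w ∧ w ≤ N x} => Be B N (i + 1) w.1)
          ⟨im g⁻¹ w, hw', hwN'⟩
      intro g hg x hx
      refine le_antisymm ?_ (key g hg x hx)
      have h2 := key g⁻¹ (G.inv_mem hg) (im g x) hx.im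
      rw [im_inv_im] at h2
      have h3 := im_mono g h2
      rwa [im_im_inv] at h3

theorem pfin (spec : SPEC) (symc : SYMC) (cann : CANN) : PFIN := by
  intro F _ _ W _ _ _ G B N hPG hNN hPT hB h5 hdim hAi
  obtain ⟨hsym, hdec, hS3⟩ := symc F W B N hPG
  have hBe := be_equiv (G := G) hNN.eqN hB
  have hmin := (cann F W G 2 N hNN).2.2
  have hinv : ∀ i x, Pt x → ∀ g ∈ G, im g x = x → im g (Be B N i x) = Be B N i x := by
    intro i x hx g hg hgx
    rw [← hBe i g hg x hx, hgx]
  have hfN : ∀ x, Pt x → finrank F (N x) = 3 := hPG.dimN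
  have hxex : ∃ x : Submodule F W, Pt x := by
    obtain ⟨x, hx, -⟩ := exists_pt_le (F := F) (V := W) (U := ⊤) (by
      intro h
      have h1 : finrank F (⊤ : Submodule F W) = 0 := by rw [h]; exact finrank_bot F W
      rw [finrank_top] at h1
      omega)
    exact ⟨x, hx⟩
  obtain ⟨k, hk | hk⟩ := Nat.even_or_odd' (finrank F W)
  · exfalso
    obtain ⟨x, hx⟩ := hxex
    have hU := hdim (k - 1) (by omega) x hx
    have hU2 : finrank F (Be B N (k - 1) x) = 2 := by omega
    obtain ⟨U, hUdef⟩ : ∃ U, U = Be B N (k - 1) x := ⟨_, rfl⟩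
    rw [← hUdef] at hU2
    have hUinv : ∀ g ∈ G, im g x = x → im g U = U := by
      rw [hUdef]; exact hinv (k - 1) x hx
    have hx1 : finrank F x = 1 := hx
    by_cases hxU : x ≤ U
    · have hlt : x < U := lt_of_le_of_ne hxU (by
        intro h
        rw [h] at hx1
        omega)
      have h1 := Submodule.finrank_mono (hmin x U hx hlt hUinv)
      rw [hfN x hx] at h1
      omega
    · have hlt : x < x ⊔ U := lt_of_le_of_ne le_sup_left (by
        intro h
        have h1 : U ≤ x := by rw [h]; exact le_sup_right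
        have h2 := Submodule.finrank_mono h1
        omega)
      have hle := hmin x (x ⊔ U) hx hlt (by
        intro g hg hgx
        rw [im_sup, hgx, hUinv g hg hgx])
      have h3 : finrank F ↥(x ⊔ U) = 3 := by
        rw [sup_comm, finrank_sup_pt hx hxU, hU2]
      have heq : N x = x ⊔ U := Submodule.eq_of_le_of_finrank_eq hle (by rw [hfN x hx, h3])
      have hUN : U ≤ N x := by rw [heq]; exact le_sup_right
      obtain ⟨y, hy, hyU⟩ := exists_pt_le (F := F) (V := W) (U := U) (by
        intro h
        rw [h, finrank_bot] at hU2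
        omega)
      obtain ⟨v, hv, hxv⟩ := hx.exists_span
      obtain ⟨w, hw, hyw⟩ := hy.exists_span
      have hvx : v ∈ x := by rw [hxv]; exact mem_span_singleton_self v
      have hwU : w ∈ U := by
        apply hyU; rw [hyw]; exact mem_span_singleton_self w
      have hvU : v ∉ U := by
        intro h
        apply hxU
        rw [hxv, span_singleton_le_iff_mem]
        exact h
      have hvw : v + w ∉ U := fun h => hvU (by
        have := U.sub_mem h hwU
        rwa [add_sub_cancel_right] at this)
      have hvw0 : v + w ≠ 0 := fun h => hvw (by rw [h]; exact U.zero_mem)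
      have hz : Pt (F ∙ (v + w)) := pt_span hvw0
      have hyx : y ≠ x := fun h => hxU (h ▸ hyU)
      have hzx : (F ∙ (v + w)) ≠ x := by
        intro h
        have h4 : v + w ∈ x := by rw [← h]; exact mem_span_singleton_self _
        have h5 : w ∈ x := by
          have := x.sub_mem h4 hvx
          rwa [add_sub_cancel_left] at this
        have h6 : y ≤ x := by rw [hyw, span_singleton_le_iff_mem]; exact h5
        exact hyx (hy.eq_of_le hx h6)
      have hzN : (F ∙ (v + w)) ≤ N x := by
        rw [span_singleton_le_iff_mem]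
        exact (N x).add_mem (hNN.selfN x hx hvx) (hUN hwU)
      obtain ⟨g, hg, hgx, hgy⟩ := hNN.trN x y _ hx hy hz (hyU.trans hUN) hzN hyx hzx
      apply hvw
      have h7 := im_mono g hyU
      rw [hgy, hUinv g hg hgx, span_singleton_le_iff_mem] at h7
      exact h7
  · have hk2 : 2 ≤ k := by omega
    have hBk : ∀ x, Pt x → Be B N k x = x := by
      intro x hx
      have hU := hdim k (by omega) x hx
      have hu : Pt (Be B N k x) := by
        show finrank F (Be B N k x) = 1
        omega
      by_contra hne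
      have hl := ln_sup hx hu (Ne.symm hne)
      have hx1 : finrank F x = 1 := hx
      have hl2 : finrank F ↥(x ⊔ Be B N k x) = 2 := hl
      have hlt : x < x ⊔ Be B N k x := lt_of_le_of_ne le_sup_left (by
        intro h
        rw [← h] at hl2
        omega)
      have h1 := Submodule.finrank_mono (hmin x _ hx hlt (by
        intro g hg hgx
        rw [im_sup, hgx, hinv k x hx g hg hgx]))
      rw [hfN x hx, hl2] at h1
      omega
    have hBN : ∀ x, Pt x → Be B N (k - 1) x = N x := by
      intro x hx
      have h1 := (hAi (k - 1) (by omega) (by omega) x x hx hx).2.2.2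
      rw [show k - 1 + 1 = k by omega, hBk x hx] at h1
      have h2 := h1.1 le_rfl
      have h3 := hdim (k - 1) (by omega) x hx
      exact (Submodule.eq_of_le_of_finrank_eq h2 (by rw [hfN x hx]; omega)).symm
    have hanti : ∀ x, Pt x → ∀ i j, i ≤ j → Be B N j x ≤ Be B N i x := by
      intro x hx i j hij
      induction j, hij using Nat.le_induction with
      | base => exact le_rfl
      | succ j _ ih => exact (hdec j x hx).trans ih
    classical
    letI : Fintype {x : Submodule F W // Pt x} := Fintype.ofFinite _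
    obtain ⟨q, hqdef⟩ : ∃ q, q = Nat.card F := ⟨_, rfl⟩
    have hq2 : 2 ≤ q := by
      rw [hqdef]
      exact Finite.one_lt_card
    let M : ℕ → Matrix {x : Submodule F W // Pt x} {x : Submodule F W // Pt x} ℝ :=
      fun i => Matrix.of fun x y => if y.1 ≤ Be B N i x.1 then 1 else 0
    have hMdef : ∀ i x y, M i x y = if y.1 ≤ Be B N i x.1 then 1 else 0 := fun i x y => rfl
    have hcount : ∀ U : Submodule F W,
        (∑ z : {x : Submodule F W // Pt x}, if z.1 ≤ U then (1 : ℝ) else 0) =
          (br q (finrank F U) : ℝ) := by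
      intro U
      rw [Finset.sum_boole, hqdef, ← card_pts_le U, Nat.card_congr
        (Equiv.subtypeSubtypeEquivSubtypeInter (fun x : Submodule F W => Pt x)
          (fun x => x ≤ U)).symm, Nat.card_eq_fintype_card, Fintype.card_subtype]
    refine spec q k hq2 hk2 {x : Submodule F W // Pt x} M ?_ ?_ ?_ ?_ ?_ ?_ ?_
    · rw [← Nat.card_eq_fintype_card, card_pts, hk, hqdef]
    · intro i
      refine Matrix.IsSymm.ext fun x y => ?_
      rw [hMdef, hMdef]
      exact if_congr ⟨fun h => hsym i y.1 x.1 y.2 x.2 h, fun h => hsym i x.1 y.1 x.2 y.2 h⟩ rfl rfl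
    · ext x y
      rw [hMdef, Matrix.of_apply, if_pos]
      exact le_top
    · ext x y
      rw [hMdef, hBk x.1 x.2, Matrix.one_apply]
      refine if_congr ?_ rfl rfl
      constructor
      · intro h
        exact (Subtype.ext (y.2.eq_of_le x.2 h)).symm
      · intro h
        rw [h]
    · intro i hi x
      rw [hMdef, if_pos]
      have := hanti x.1 x.2 i k hi
      rwa [hBk x.1 x.2] at this
    · intro i hi hik
      ext x y
      have h1 : (M i * M (k - 1)) x y =
          ∑ z : {x : Submodule F W // Pt x}, if z.1 ≤ N y.1 ⊓ Be B N i x.1 then (1 : ℝ) else 0 := by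
        rw [Matrix.mul_apply]
        refine Finset.sum_congr rfl fun z _ => ?_
        rw [hMdef, hMdef, hBN z.1 z.2]
        have hiff : z.1 ≤ N y.1 ⊓ Be B N i x.1 ↔ (z.1 ≤ Be B N i x.1 ∧ y.1 ≤ N z.1) := by
          rw [le_inf_iff]
          exact ⟨fun h => ⟨h.2, hPG.symN _ _ y.2 z.2 h.1⟩,
            fun h => ⟨hPG.symN _ _ z.2 y.2 h.2, h.1⟩⟩
        by_cases c1 : z.1 ≤ Be B N i x.1
        · by_cases c2 : y.1 ≤ N z.1
          · rw [if_pos c1, if_pos c2, if_pos (hiff.2 ⟨c1, c2⟩), mul_one]
          · rw [if_neg c2, if_neg (fun h => c2 (hiff.1 h).2), mul_zero]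
        · rw [if_neg c1, if_neg (fun h => c1 (hiff.1 h).1), zero_mul]
      rw [h1, hcount, Matrix.add_apply, Matrix.add_apply, Matrix.smul_apply, Matrix.smul_apply,
        hMdef, hMdef, hMdef]
      obtain ⟨c1, c2, c3, c4⟩ := hAi i hi (by omega) x.1 y.1 x.2 y.2
      have hd1 := hanti x.1 x.2 (i - 1) i (by omega)
      have hd2 := hanti x.1 x.2 i (i + 1) (by omega)
      by_cases a1 : y.1 ≤ Be B N (i - 1) x.1
      · by_cases a2 : y.1 ≤ Be B N i x.1
        · by_cases a3 : y.1 ≤ Be B N (i + 1) x.1
          · rw [if_pos a1, if_pos a2, if_pos a3]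
            have h2 : N y.1 ⊓ Be B N i x.1 = N y.1 := inf_eq_left.2 (c4.1 a3)
            rw [h2, hfN y.1 y.2]
            simp [br, Finset.sum_range_succ]
          · rw [if_pos a1, if_pos a2, if_neg a3, c3 a2 a3]
            simp [br, Finset.sum_range_succ]
        · have a3 : ¬ y.1 ≤ Be B N (i + 1) x.1 := fun h => a2 (h.trans hd2)
          rw [if_pos a1, if_neg a2, if_neg a3, c2 a1 a2]
          simp [br, Finset.sum_range_succ]
      · have a2 : ¬ y.1 ≤ Be B N i x.1 := fun h => a1 (h.trans hd1)
        have a3 : ¬ y.1 ≤ Be B N (i + 1) x.1 := fun h => a2 (h.trans hd2)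
        rw [if_neg a1, if_neg a2, if_neg a3, c1 a1, finrank_bot]
        simp [br]
    · ext x y
      rw [Matrix.mul_apply, Matrix.smul_apply]
      have h1 : ∀ z : {x : Submodule F W // Pt x}, M 0 z y = 1 := by
        intro z
        rw [hMdef, if_pos]
        exact le_top
      have h2 : (∑ z : {x : Submodule F W // Pt x}, M (k - 1) x z * M 0 z y) =
          ∑ z : {x : Submodule F W // Pt x}, if z.1 ≤ N x.1 then (1 : ℝ) else 0 := by
        refine Finset.sum_congr rfl fun z _ => ?_
        rw [h1, hMdef, hBN x.1 x.2, mul_one]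
      rw [h2, hcount, h1, hfN x.1 x.2, smul_eq_mul, mul_one]

end Pool.Agent.Helper11.PFIN
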